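import Pool.Agent.X24.RZ.AvgBase

/-!
# Fan's 6/5 bound for graphs with at most thirteen vertices of odd degree

A finite graph with vertex set `V` and edge set `E` (parallel edges and loops are allowed) is given by
the maps `src, dst : E → V`.

* `cut src dst X`: the edges with exactly one end in `X`.
* `deg src dst C v`: the number of ends at `v` of the edges of `C` (loops count twice).
* `IsEven src dst C`: every vertex is incident with an even number of edges of `C`.
* `IsParity src dst P`: the edges outside of `P` form an even subgraph.

Proof.  All vertices of even degree are split off, and the odd vertices get degree `5`, so that a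
`5`-graph `p` on the odd vertices remains (`Pool.Agent.H185F`, after Zhang); parity subgraphs of `p` pull
back to parity subgraphs of the graph, with the same weight if the weights are added up.  By Edmonds'
theorem `p` has a perfect matching `M` with `w (M) ≤ w (p) / 5` that has exactly one edge in every cut
of `5` edges with odd sides.  As `p` has at most 12 vertices, `M` contains no odd cut: such a
cut would have at least 5 and at most 6 edges, so exactly 5.  Hence `p - M` contains a parity
subgraph of `p`, by linear algebra over the field with two elements, and `M`, this parity subgraph and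
the rest are three parity subgraphs; the complements of the second and of the third cover all edges.
-/

set_option autoImplicit false

namespace Pool.Agent.Results.MP_a48b5a_co.ThirteenOddVertices

open Finset

/-- the edges with exactly one end in `X` -/
def cut {V E : Type} [DecidableEq V] [Fintype E] (src dst : E → V) (X : Finset V) : Finset E :=
  univ.filter (fun e => ¬ (src e ∈ X ↔ dst e ∈ X))

/-- the number of ends at `v` of the edges of `C` (a loop at `v` counts twice) -/
def deg {V E : Type} [DecidableEq V] (src dst : E → V) (C : Finset E) (v : V) : ℕ :=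
  (C.filter (fun e => src e = v)).card + (C.filter (fun e => dst e = v)).card

/-- `C` is an even subgraph: all degrees in `C` are even -/
def IsEven {V E : Type} [DecidableEq V] (src dst : E → V) (C : Finset E) : Prop :=
  ∀ v, Even (deg src dst C v)

/-- `P` is a parity subgraph: the edges outside of `P` form an even subgraph -/
def IsParity {V E : Type} [DecidableEq V] [Fintype E] [DecidableEq E] (src dst : E → V)
    (P : Finset E) : Prop :=
  IsEven src dst Pᶜ

section
variable {V E : Type} [Fintype V] [DecidableEq V] [Fintype E] [DecidableEq E]
open Pool.Agent.X24.RZ Pool.Agent.H185F Pool.Agent.H239R2.Cover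

theorem deg_cast (src dst : E → V) (P : E → Prop) [DecidablePred P] (v : V) :
    ((deg src dst (univ.filter P) v : ℕ) : ZMod 2) =
      ∑ g, (if P g then (1 : ZMod 2) else 0) * hh src dst g v := by
  unfold deg hh
  push_cast
  rw [filter_filter, filter_filter, card_filter, card_filter]
  push_cast
  rw [← sum_add_distrib]
  refine sum_congr rfl fun g _ => ?_
  by_cases h1 : P g <;> by_cases h2 : src g = v <;> by_cases h3 : dst g = v <;> simp [h1, h2, h3]

theorem deg_odd (src dst : E → V) (v : V) :
    Odd (deg src dst univ v) ↔ Odd (ecut src dst {v}).card := by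
  have h1 : ((deg src dst univ v : ℕ) : ZMod 2) = (((ecut src dst {v}).card : ℕ) : ZMod 2) := by
    have h2 := deg_cast src dst (fun _ => True) v
    rw [filter_true_of_mem (fun _ _ => trivial)] at h2
    rw [h2]
    simp only [if_true]
    rw [sum_hh (fun _ => 1), sum_const, nsmul_eq_mul, mul_one]
  rw [← ZMod.natCast_eq_one_iff_odd, ← ZMod.natCast_eq_one_iff_odd, h1]

theorem odds_le (src dst : E → V) {N : ℕ}
    (h : (univ.filter fun v => Odd (deg src dst univ v)).card ≤ 2 * N + 1) :
    (univ.filter fun v => Odd (ecut src dst {v}).card).card ≤ 2 * N := by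
  have e : (univ.filter fun v => Odd (deg src dst univ v)) =
      univ.filter fun v => Odd (ecut src dst {v}).card := by
    ext v
    rw [mem_filter, mem_filter, deg_odd]
  have hev : Even (univ.filter fun v => Odd (ecut src dst {v}).card).card := by
    have h1 := Pool.Agent.X24.RZ.parity_sum src dst univ
    have h2 : ecut src dst univ = ∅ := by
      ext g
      simp [mem_ecut]
    rw [h2, card_empty] at h1
    have h3 : Even (∑ x, (ecut src dst {x}).card) := by
      rw [Nat.even_iff]
      omega
    exact (Finset.even_sum_iff_even_card_odd _).1 h3
  rw [e] at h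
  obtain ⟨m, hm⟩ := hev
  omega

theorem even_compl {src dst : E → V} {c : E → Fin 3} (i : Fin 3)
    (h : ∀ v, ∑ g, (if c g = i then (1 : ZMod 2) else 0) * hh src dst g v =
      ∑ g, 1 * hh src dst g v) : IsEven src dst (univ.filter fun e => ¬ c e = i) := by
  intro v
  rw [← ZMod.natCast_eq_zero_iff_even, deg_cast]
  have h2 : ∑ g, (if ¬ c g = i then (1 : ZMod 2) else 0) * hh src dst g v =
      ∑ g, 1 * hh src dst g v - ∑ g, (if c g = i then (1 : ZMod 2) else 0) * hh src dst g v := by
    rw [← sum_sub_distrib]
    refine sum_congr rfl fun g _ => ?_
    by_cases h3 : c g = i <;> simp [h3]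
  rw [h2, h v, sub_self]

end

/-- Let `G` be a finite graph (loops and parallel edges allowed) with at most thirteen vertices of odd
degree such that every cut with an odd number of edges has at least five edges (for example, `G` is
4-edge-connected), and let `w ≥ 0` be edge weights.  Then the edges can be partitioned into three parity
subgraphs `P 0, P 1, P 2` with `w (P 0) ≤ w (E) / 5`, and there are two even subgraphs which cover all
edges and have total weight at most `6 / 5 * w (E)`. -/
theorem result (V E : Type) [Fintype V] [DecidableEq V] [Fintype E] [DecidableEq E]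
    (src dst : E → V) (h13 : (univ.filter fun v => Odd (deg src dst univ v)).card ≤ 13)
    (hcut : ∀ X : Finset V, Odd (cut src dst X).card → 5 ≤ (cut src dst X).card)
    (w : E → ℝ) (hw : ∀ e, 0 ≤ w e) :
    (∃ P : Fin 3 → Finset E, (∀ e, ∃! i, e ∈ P i) ∧ (∀ i, IsParity src dst (P i)) ∧
      5 * ∑ e ∈ P 0, w e ≤ ∑ e, w e) ∧
    ∃ C₁ C₂ : Finset E, IsEven src dst C₁ ∧ IsEven src dst C₂ ∧ C₁ ∪ C₂ = univ ∧
      5 * (∑ e ∈ C₁, w e + ∑ e ∈ C₂, w e) ≤ 6 * ∑ e, w e := by
  obtain ⟨c, hc, hcw⟩ := Pool.Agent.X24.RZ.sh_avg (r := 5) (by decide) (by decide) src dst hcut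
    (odds_le src dst (N := 6) h13) w hw
  push_cast at hcw
  refine ⟨⟨fun i => univ.filter fun e => c e = i, fun e => ⟨c e, mem_filter.2 ⟨mem_univ _, rfl⟩,
    fun i hi => (mem_filter.1 hi).2.symm⟩, fun i => ?_, ?_⟩,
    univ.filter fun e => ¬ c e = 2, univ.filter fun e => ¬ c e = 1,
    even_compl 2 fun v => hc v 2, even_compl 1 fun v => hc v 1, ?_, ?_⟩
  · have e1 : (univ.filter fun e => c e = i)ᶜ = univ.filter fun e => ¬ c e = i := by
      ext e
      simp
    unfold IsParity
    rw [e1]
    exact even_compl i fun v => hc v i
  · rw [sum_filter]
    exact hcw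
  · ext e
    simp only [mem_union, mem_filter, mem_univ, true_and, iff_true]
    by_contra h
    push Not at h
    exact absurd (h.1.symm.trans h.2) (by decide)
  · have h1 : ∑ e ∈ univ.filter (fun e => ¬ c e = 2), w e +
        ∑ e ∈ univ.filter (fun e => ¬ c e = 1), w e =
        ∑ e, w e + ∑ e, (if c e = 0 then w e else 0) := by
      rw [sum_filter, sum_filter, ← sum_add_distrib, ← sum_add_distrib]
      refine sum_congr rfl fun e _ => ?_
      have h3 : ∀ i : Fin 3, i = 0 ∨ i = 1 ∨ i = 2 := by decide
      rcases h3 (c e) with h | h | h <;> simp [h]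
    rw [h1]
    linarith

end Pool.Agent.Results.MP_a48b5a_co.ThirteenOddVertices
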